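import Pool.Agent.W312.TP.Stm

/-!
# Tree t-spanners of path graphs: from the weighted spanner of the core to `CoreTree`
-/

set_option autoImplicit false

namespace Pool.Agent.W98.TP

open Pool.Agent.NPC Pool.Agent.H673R2 Pool.Agent.H673R2.Ts Pool.Agent.W312.TP

theorem mem_cliqueE (n x y : ℕ) : (x, y) ∈ cliqueE n ↔ x < y ∧ y < n := by
  simp only [cliqueE, List.mem_flatMap, List.mem_range, List.mem_map, Prod.mk.injEq]
  constructor
  · rintro ⟨j, hj, i, hi, rfl, rfl⟩
    exact ⟨hi, hj⟩
  · rintro ⟨h1, h2⟩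
    exact ⟨y, h2, x, h1, rfl, rfl⟩

theorem mem_opE (A : List ℕ) (n m x y : ℕ) :
    (x, y) ∈ opE A n m ↔ ∃ j < m, y = n + j ∧ (x ∈ A ∨ ∃ j' < j, x = n + j') := by
  simp only [opE, List.mem_flatMap, List.mem_range, List.mem_map, Prod.mk.injEq, List.mem_append]
  constructor
  · rintro ⟨j, hj, z, hz, rfl, rfl⟩
    refine ⟨j, hj, rfl, ?_⟩
    rcases hz with hz | ⟨i, hi, rfl⟩
    · exact Or.inl hz
    · exact Or.inr ⟨i, hi, rfl⟩
  · rintro ⟨j, hj, rfl, h⟩
    refine ⟨j, hj, x, ?_, rfl, rfl⟩
    rcases h with h | ⟨i, hi, rfl⟩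
    · exact Or.inl h
    · exact Or.inr ⟨i, hi, rfl⟩

theorem mem_zipIdx_iff {α : Type} (L : List α) (g : α) (i : ℕ) :
    (g, i) ∈ L.zipIdx ↔ L[i]? = some g := by
  rw [List.mem_zipIdx_iff_getElem?]

/-- Description of the edges of the core. -/
theorem mem_coreE (t p : ℕ) (gs : List Gad) (x y : ℕ) : (x, y) ∈ coreE t p gs ↔
    (x < y ∧ y < nC t p) ∨
    (∃ i < p, ∃ j < rr t - 2, y = hBase t p i + j ∧
      (x = el t (2 * i) ∨ x = el t (2 * i + 1) ∨ ∃ j' < j, x = hBase t p i + j')) ∨
    (∃ i g, gs[i]? = some g ∧ ∃ j < kk t, y = aBase t p i + j ∧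
      (x = el t g.2.1 ∨ x = el t g.2.2.1 ∨ x = el t g.2.2.2 ∨ ∃ j' < j, x = aBase t p i + j')) := by
  simp only [coreE, List.mem_append, mem_cliqueE, List.mem_flatMap, List.mem_range, mem_opE,
    List.mem_cons, List.not_mem_nil, or_false, or_assoc]
  constructor
  · rintro (h | h | ⟨⟨g, i⟩, h, h'⟩)
    · exact Or.inl h
    · exact Or.inr (Or.inl h)
    · exact Or.inr (Or.inr ⟨i, g, (mem_zipIdx_iff gs g i).1 h, h'⟩)
  · rintro (h | h | ⟨i, g, h, h'⟩)
    · exact Or.inl h
    · exact Or.inr (Or.inl h)
    · exact Or.inr (Or.inr ⟨(g, i), (mem_zipIdx_iff gs g i).2 h, h'⟩)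

theorem lastEnd_fst (x : End) (n j : ℕ) : (lastEnd x n j).1 = if j = 0 then x.1 else n + j - 1 := by
  unfold lastEnd
  split_ifs <;> rfl

theorem mem_chain (ν : ℕ) (x : End) (n m j : ℕ) (hj : j < m) :
    (ν, lastEnd x n j, (n + j, false)) ∈ chain ν x n m := by
  simp only [chain, List.mem_map, List.mem_range]
  exact ⟨j, hj, rfl⟩

theorem mem_chain_drop (ν : ℕ) (x : End) (n m j : ℕ) (hj : j + 1 < m) :
    (ν, lastEnd x n (j + 1), (n + (j + 1), false)) ∈ (chain ν x n m).drop 1 := by
  rw [List.mem_iff_getElem?]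
  refine ⟨j, ?_⟩
  rw [List.getElem?_drop]
  simp only [chain, List.getElem?_map]
  rw [List.getElem?_range (by omega)]
  simp [Nat.add_comm]

theorem slot_c (t p : ℕ) (gs : List Gad) (j : ℕ) (hj : j < t) :
    ((0, (j, true), (j + 1, false)) : Slot) ∈ coreS t p gs := by
  simp only [coreS, List.mem_append, List.mem_map, List.mem_range]
  exact Or.inl (Or.inl ⟨j, hj, rfl⟩)

theorem slot_p (t p : ℕ) (gs : List Gad) (i : ℕ) (hi : i < p) (q : Slot)
    (hq : q ∈ pairSlots t p i) : q ∈ coreS t p gs := by
  simp only [coreS, List.mem_append, List.mem_flatMap, List.mem_range]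
  exact Or.inl (Or.inr ⟨i, hi, hq⟩)

theorem slot_g (t p : ℕ) (gs : List Gad) (i : ℕ) (g : Gad) (hg : gs[i]? = some g) (q : Slot)
    (hq : q ∈ gadSlots t p g i) : q ∈ coreS t p gs := by
  simp only [coreS, List.mem_append, List.mem_flatMap]
  exact Or.inr ⟨(g, i), (mem_zipIdx_iff gs g i).2 hg, hq⟩

theorem mul_add_inj {a i i' j j' : ℕ} (hj : j < a) (hj' : j' < a) (h : a * i + j = a * i' + j') :
    i = i' ∧ j = j' := by
  have h1 : (a * i + j) / a = i := by
    rw [Nat.mul_add_div (by omega), Nat.div_eq_of_lt hj, Nat.add_zero]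
  have h2 : (a * i' + j') / a = i' := by
    rw [Nat.mul_add_div (by omega), Nat.div_eq_of_lt hj', Nat.add_zero]
  have h3 : i = i' := by rw [← h1, ← h2, h]
  subst h3
  exact ⟨rfl, by omega⟩

theorem mul_add_lt {a i j b : ℕ} (hj : j < a) (hi : i < b) : a * i + j < a * b := by
  have : a * (i + 1) ≤ a * b := Nat.mul_le_mul_left a hi
  rw [Nat.mul_add] at this
  omega

theorem elt_lt {p : ℕ} {gs : List Gad} (h : POk p gs) {i : ℕ} {g : Gad} (hg : gs[i]? = some g)
    {e : ℕ} (he : e = g.2.1 ∨ e = g.2.2.1 ∨ e = g.2.2.2) : e < 2 * p := by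
  apply h.2
  simp only [elts, List.mem_flatMap, List.mem_cons, List.not_mem_nil, or_false]
  exact ⟨g, List.mem_of_getElem? hg, he⟩

theorem main (t p : ℕ) (gs : List Gad) (ht : 4 ≤ t) (hok : POk p gs) (n : ℕ)
    (hnv : n = t + 1 + 2 * p + (rr t - 2) * p + kk t * gs.length) (T : SimpleGraph (Fin n))
    (hT : T.IsTree)
    (hE : ∀ x y : Fin n, T.Adj x y → ((x : ℕ), (y : ℕ)) ∈ coreE t p gs ∨
      ((y : ℕ), (x : ℕ)) ∈ coreE t p gs)
    (hD : ∀ x y : Fin n, ((x : ℕ), (y : ℕ)) ∈ coreE t p gs → T.dist x y ≤ t)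
    (hS : ∀ q ∈ coreS t p gs, ∀ x y : Fin n, (x : ℕ) = q.2.1.1 → (y : ℕ) = q.2.2.1 →
      T.dist x y ≤ 1) :
    ∃ (V : Type) (T : SimpleGraph V) (c : ℕ → V) (P a : ℕ → ℕ → V), CoreTree t p gs V T c P a := by
  have hr : 2 ≤ rr t := by unfold rr; omega
  have hk : 1 ≤ kk t ∧ kk t ≤ 2 := by unfold kk; omega
  have hn0 : 0 < n := by omega
  let vx : ℕ → Fin n := fun x => if h : x < n then ⟨x, h⟩ else ⟨0, hn0⟩
  have hvx : ∀ x, x < n → ((vx x : Fin n) : ℕ) = x := by
    intro x hx
    simp only [vx, dif_pos hx]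
  have hinj : ∀ x y, x < n → y < n → vx x = vx y → x = y := by
    intro x y hx hy h
    have := congrArg (fun z : Fin n => (z : ℕ)) h
    simp only [hvx x hx, hvx y hy] at this
    exact this
  have hadj : ∀ q ∈ coreS t p gs, q.2.1.1 < n → q.2.2.1 < n → q.2.1.1 ≠ q.2.2.1 →
      T.Adj (vx q.2.1.1) (vx q.2.2.1) := by
    intro q hq h1 h2 h3
    have h4 := hS q hq (vx q.2.1.1) (vx q.2.2.1) (hvx _ h1) (hvx _ h2)
    have h5 : vx q.2.1.1 ≠ vx q.2.2.1 := fun h => h3 (hinj _ _ h1 h2 h)
    have h6 : T.dist (vx q.2.1.1) (vx q.2.2.1) ≠ 0 := by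
      intro h
      exact h5 ((hT.1.dist_eq_zero_iff).1 h)
    rw [← SimpleGraph.dist_eq_one_iff_adj]
    omega
  have hdist : ∀ x y, (x, y) ∈ coreE t p gs → x < n → y < n → T.dist (vx x) (vx y) ≤ t := by
    intro x y h hx hy
    apply hD
    rw [hvx x hx, hvx y hy]
    exact h
  have hlen : ∀ i g, gs[i]? = some g → i < gs.length := by
    intro i g h
    by_contra hc
    rw [List.getElem?_eq_none (by omega)] at h
    cases h
  -- numbers
  have hb1 : ∀ e < 2 * p, el t e < n := by
    intro e he
    unfold el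
    omega
  have hb2 : ∀ i < p, ∀ j < rr t - 2, hBase t p i + j < n ∧ t + 1 + 2 * p ≤ hBase t p i + j ∧
      hBase t p i + j < t + 1 + 2 * p + (rr t - 2) * p := by
    intro i hi j hj
    have := mul_add_lt hj hi
    unfold hBase nC
    omega
  have hb3 : ∀ i < gs.length, ∀ j < kk t, aBase t p i + j < n ∧
      t + 1 + 2 * p + (rr t - 2) * p ≤ aBase t p i + j := by
    intro i hi j hj
    have := mul_add_lt hj hi
    unfold aBase nC
    omega
  let pn : ℕ → ℕ → ℕ := fun i j => if j = 0 then el t (2 * i) else if j = rr t - 1 then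
    el t (2 * i + 1) else hBase t p i + (j - 1)
  have hpn : ∀ i < p, ∀ j ≤ rr t - 1, pn i j < n ∧ t + 1 ≤ pn i j ∧
      pn i j < t + 1 + 2 * p + (rr t - 2) * p := by
    intro i hi j hj
    simp only [pn]
    have h1 := hb1 (2 * i) (by omega)
    have h2 := hb1 (2 * i + 1) (by omega)
    split_ifs with h3 h4
    · unfold el at *
      exact ⟨h1, by omega, by omega⟩
    · unfold el at *
      exact ⟨h2, by omega, by omega⟩
    · have := hb2 i hi (j - 1) (by omega)
      omega
  have hEV : ∀ e, EV t (fun i j => vx (pn i j)) e = vx (el t e) := by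
    intro e
    unfold EV
    split_ifs with h
    · simp only [pn, if_true]
      congr 2
      omega
    · have h1 : rr t - 1 ≠ 0 := by omega
      simp only [pn, if_neg h1, if_true]
      congr 2
      omega
  refine ⟨Fin n, T, fun j => vx j, fun i j => vx (pn i j), fun i j => vx (aBase t p i + j), ?_⟩
  refine ⟨hT, ?_, ?_, ?_, ?_, ?_, ?_, ?_, ?_, ?_, ?_, ?_, ?_, ?_⟩
  · -- cadj
    intro j hj
    exact hadj (0, (j, true), (j + 1, false)) (slot_c t p gs j hj) (by show j < n; omega)
      (by show j + 1 < n; omega) (by show j ≠ j + 1; omega)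
  · -- cinj
    intro i hi j hj h
    exact hinj _ _ (by omega) (by omega) h
  · -- padj
    intro i hi j hj
    have hA := hpn i hi j (by omega)
    have hB := hpn i hi (j + 1) (by omega)
    show T.Adj (vx (pn i j)) (vx (pn i (j + 1)))
    by_cases h1 : j + 1 = rr t - 1
    · have e1 : pn i j = (lastEnd (el t (2 * i), false) (hBase t p i) (rr t - 2)).1 := by
        rw [lastEnd_fst]
        simp only [pn]
        split_ifs <;> first | rfl | omega
      have e2 : pn i (j + 1) = el t (2 * i + 1) := by
        show (if j + 1 = 0 then el t (2 * i) else if j + 1 = rr t - 1 then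
          el t (2 * i + 1) else hBase t p i + (j + 1 - 1)) = _
        rw [if_neg (by omega), if_pos h1]
      rw [e1] at hA ⊢
      rw [e2] at hB ⊢
      refine hadj (1 + i, lastEnd (el t (2 * i), false) (hBase t p i) (rr t - 2),
        (el t (2 * i + 1), false)) (slot_p t p gs i hi _ ?_) hA.1 hB.1 ?_
      · simp [pairSlots]
      · show (lastEnd (el t (2 * i), false) (hBase t p i) (rr t - 2)).1 ≠ el t (2 * i + 1)
        rw [lastEnd_fst]
        split_ifs with h2
        · show el t (2 * i) ≠ el t (2 * i + 1)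
          unfold el; omega
        · have := hb2 i hi (rr t - 2 - 1) (by omega)
          unfold el
          omega
    · have e1 : pn i j = (lastEnd (el t (2 * i), false) (hBase t p i) j).1 := by
        rw [lastEnd_fst]
        simp only [pn]
        split_ifs <;> first | rfl | omega
      have e2 : pn i (j + 1) = hBase t p i + j := by
        show (if j + 1 = 0 then el t (2 * i) else if j + 1 = rr t - 1 then
          el t (2 * i + 1) else hBase t p i + (j + 1 - 1)) = _
        rw [if_neg (by omega), if_neg h1]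
        omega
      rw [e1] at hA ⊢
      rw [e2] at hB ⊢
      refine hadj (1 + i, lastEnd (el t (2 * i), false) (hBase t p i) j,
        (hBase t p i + j, false)) (slot_p t p gs i hi _ ?_) hA.1 hB.1 ?_
      · simp only [pairSlots, List.mem_append]
        exact Or.inl (mem_chain _ _ _ _ _ (by omega))
      · show (lastEnd (el t (2 * i), false) (hBase t p i) j).1 ≠ hBase t p i + j
        rw [lastEnd_fst]
        have := hb2 i hi j (by omega)
        split_ifs with h2
        · show el t (2 * i) ≠ _
          unfold el; omega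
        · omega
  · -- pinj
    intro i hi i' hi' j hj j' hj' h
    have h' := hinj _ _ (hpn i hi j hj).1 (hpn i' hi' j' hj').1 h
    simp only [pn] at h'
    have hX : ∀ i₀ < p, ∀ j₀, j₀ ≠ 0 → j₀ ≤ rr t - 1 → j₀ ≠ rr t - 1 →
        t + 1 + 2 * p ≤ hBase t p i₀ + (j₀ - 1) := by
      intro i₀ h₀ j₀ h₁ h₂ h₃
      exact (hb2 i₀ h₀ (j₀ - 1) (by omega)).2.1
    split_ifs at h' with a1 a2 a3 a4 a5 a6
    · unfold el at h'; omega
    · unfold el at h'; omega
    · have := hX i' hi' j' a2 hj' a3
      unfold el at h'; omega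
    · unfold el at h'; omega
    · unfold el at h'; omega
    · have := hX i' hi' j' (by assumption) hj' (by assumption)
      unfold el at h'; omega
    · have := hX i hi j (by assumption) hj (by assumption)
      unfold el at h'; omega
    · have := hX i hi j (by assumption) hj (by assumption)
      unfold el at h'; omega
    · have h2 : (rr t - 2) * i + (j - 1) = (rr t - 2) * i' + (j' - 1) := by
        unfold hBase at h'; omega
      have := mul_add_inj (by omega) (by omega) h2
      omega
  · -- pc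
    intro i hi j hj l hl h
    have h1 := hpn i hi j hj
    have := hinj _ _ h1.1 (by omega) h
    omega
  · -- pnbr
    intro i hi j hj0 hj z hz
    have e1 : pn i j = hBase t p i + (j - 1) := by
      simp only [pn]
      rw [if_neg (by omega), if_neg (by omega)]
    have hB := hb2 i hi (j - 1) (by omega)
    have hz2 : T.Adj (vx (hBase t p i + (j - 1))) z := by
      rw [← e1]; exact hz
    have hz' := hE _ _ hz2
    rw [hvx _ hB.1] at hz'
    have key : (z : ℕ) = el t (2 * i) ∨ (z : ℕ) = el t (2 * i + 1) ∨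
        ∃ j' < rr t - 2, (z : ℕ) = hBase t p i + j' := by
      rcases hz' with hz' | hz'
      · rcases (mem_coreE t p gs _ _).1 hz' with h | ⟨i', hi', j', hj', h1, h2⟩ |
          ⟨i', g, hg, j', hj', h1, h2⟩
        · unfold nC at h; omega
        · rcases h2 with h2 | h2 | ⟨j'', hj'', h2⟩
          · unfold el at h2; omega
          · unfold el at h2; omega
          · have h3 : (rr t - 2) * i + (j - 1) = (rr t - 2) * i' + j'' := by
              unfold hBase at h2; omega
            obtain ⟨rfl, -⟩ := mul_add_inj (by omega) (by omega) h3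
            exact Or.inr (Or.inr ⟨j', hj', h1⟩)
        · have h3 := hb3 i' (hlen _ _ hg) j' hj'
          rcases h2 with h2 | h2 | h2 | ⟨j'', hj'', h2⟩
          · have := elt_lt hok hg (Or.inl rfl)
            unfold el at h2; omega
          · have := elt_lt hok hg (Or.inr (Or.inl rfl))
            unfold el at h2; omega
          · have := elt_lt hok hg (Or.inr (Or.inr rfl))
            unfold el at h2; omega
          · have h4 := hb3 i' (hlen _ _ hg) j'' (by omega)
            omega
      · rcases (mem_coreE t p gs _ _).1 hz' with h | ⟨i', hi', j', hj', h1, h2⟩ |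
          ⟨i', g, hg, j', hj', h1, h2⟩
        · unfold nC at h; omega
        · have h3 : (rr t - 2) * i + (j - 1) = (rr t - 2) * i' + j' := by
            unfold hBase at h1; omega
          obtain ⟨rfl, -⟩ := mul_add_inj (by omega) (by omega) h3
          rcases h2 with h2 | h2 | ⟨j'', hj'', h2⟩
          · exact Or.inl h2
          · exact Or.inr (Or.inl h2)
          · exact Or.inr (Or.inr ⟨j'', by omega, h2⟩)
        · have h3 := hb3 i' (hlen _ _ hg) j' hj'
          omega
    have hz0 : ∀ x, (z : ℕ) = x → z = vx x := by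
      intro x hx
      apply Fin.ext
      rw [hvx x (by have := z.2; omega)]
      exact hx
    rcases key with h | h | ⟨j', hj', h⟩
    · refine ⟨0, by omega, hz0 _ ?_⟩
      rw [h]; simp only [pn, if_true]
    · refine ⟨rr t - 1, by omega, hz0 _ ?_⟩
      rw [h]
      have h1 : rr t - 1 ≠ 0 := by omega
      simp only [pn, if_neg h1, if_true]
    · refine ⟨j' + 1, by omega, hz0 _ ?_⟩
      rw [h]
      show _ = (if j' + 1 = 0 then el t (2 * i) else if j' + 1 = rr t - 1 then
          el t (2 * i + 1) else hBase t p i + (j' + 1 - 1))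
      rw [if_neg (by omega), if_neg (by omega)]
      omega
  · -- dc
    intro e he
    rw [hEV e]
    have h1 := hb1 e he
    constructor
    · rw [SimpleGraph.dist_comm]
      refine hdist 0 (el t e) ((mem_coreE t p gs _ _).2 (Or.inl ?_)) (by omega) h1
      unfold el nC; omega
    · rw [SimpleGraph.dist_comm]
      refine hdist t (el t e) ((mem_coreE t p gs _ _).2 (Or.inl ?_)) (by omega) h1
      unfold el nC; omega
  · -- aadj
    intro i hi j hj
    have hj0 : j = 0 := by omega
    subst hj0
    obtain ⟨g, hg⟩ : ∃ g, gs[i]? = some g := ⟨gs[i], List.getElem?_eq_getElem hi⟩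
    have h1 := hb3 i hi 0 (by omega)
    have h2 := hb3 i hi 1 (by omega)
    have hm : ((1 + p + i, lastEnd (el t g.2.1, true) (aBase t p i) (0 + 1),
        (aBase t p i + (0 + 1), false)) : Slot) ∈ coreS t p gs := by
      apply slot_g t p gs i g hg
      unfold gadSlots
      split_ifs with h3
      · exact mem_chain_drop _ _ _ _ _ hj
      · exact mem_chain _ _ _ _ _ hj
    exact hadj _ hm h1.1 h2.1 (by
      show aBase t p i + (0 + 1) - 1 ≠ aBase t p i + (0 + 1)
      omega)
  · -- ainj
    intro i hi j hj j' hj' h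
    have := hinj _ _ (hb3 i hi j hj).1 (hb3 i hi j' hj').1 h
    omega
  · -- ap
    intro i hi j hj i' hi' j' hj' h
    have h1 := hb3 i hi j hj
    have h2 := hpn i' hi' j' hj'
    have := hinj _ _ h1.1 h2.1 h
    omega
  · -- a0
    intro i g hg hgf
    rw [hEV]
    have hi := hlen _ _ hg
    have h1 := hb3 i hi 0 (by omega)
    have h2 := elt_lt hok hg (Or.inl rfl)
    have h3 := hb1 _ h2
    have hm : ((1 + p + i, lastEnd (el t g.2.1, true) (aBase t p i) 0,
        (aBase t p i + 0, false)) : Slot) ∈ coreS t p gs := by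
      apply slot_g t p gs i g hg
      unfold gadSlots
      rw [if_neg (by rw [hgf]; simp)]
      exact mem_chain _ _ _ _ _ (by omega)
    exact hadj _ hm h3 h1.1 (by
      show el t g.2.1 ≠ aBase t p i + 0
      unfold el; omega)
  · -- anbr
    intro i g hg j hj z hz
    rw [hEV, hEV, hEV]
    have hi := hlen _ _ hg
    have hB := hb3 i hi j hj
    have hz' := hE _ _ hz
    rw [hvx _ hB.1] at hz'
    have key : (z : ℕ) = el t g.2.1 ∨ (z : ℕ) = el t g.2.2.1 ∨ (z : ℕ) = el t g.2.2.2 ∨
        ∃ j' < kk t, (z : ℕ) = aBase t p i + j' := by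
      rcases hz' with hz' | hz'
      · rcases (mem_coreE t p gs _ _).1 hz' with h | ⟨i', hi', j', hj', h1, h2⟩ |
          ⟨i', g', hg', j', hj', h1, h2⟩
        · unfold nC at h; omega
        · rcases h2 with h2 | h2 | ⟨j'', hj'', h2⟩
          · unfold el at h2; omega
          · unfold el at h2; omega
          · have h3 := hb2 i' hi' j'' (by omega)
            omega
        · rcases h2 with h2 | h2 | h2 | ⟨j'', hj'', h2⟩
          · have := elt_lt hok hg' (Or.inl rfl)
            unfold el at h2; omega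
          · have := elt_lt hok hg' (Or.inr (Or.inl rfl))
            unfold el at h2; omega
          · have := elt_lt hok hg' (Or.inr (Or.inr rfl))
            unfold el at h2; omega
          · have h3 : kk t * i + j = kk t * i' + j'' := by
              unfold aBase at h2; omega
            obtain ⟨rfl, -⟩ := mul_add_inj (by omega) (by omega) h3
            exact Or.inr (Or.inr (Or.inr ⟨j', hj', h1⟩))
      · rcases (mem_coreE t p gs _ _).1 hz' with h | ⟨i', hi', j', hj', h1, h2⟩ |
          ⟨i', g', hg', j', hj', h1, h2⟩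
        · unfold nC at h; omega
        · have h3 := hb2 i' hi' j' hj'
          omega
        · have h3 : kk t * i + j = kk t * i' + j' := by
            unfold aBase at h1; omega
          obtain ⟨rfl, -⟩ := mul_add_inj (by omega) (by omega) h3
          have hgg : g' = g := by
            rw [hg] at hg'
            exact (Option.some.inj hg').symm
          subst hgg
          rcases h2 with h2 | h2 | h2 | ⟨j'', hj'', h2⟩
          · exact Or.inl h2
          · exact Or.inr (Or.inl h2)
          · exact Or.inr (Or.inr (Or.inl h2))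
          · exact Or.inr (Or.inr (Or.inr ⟨j'', by omega, h2⟩))
    have hz0 : ∀ x, (z : ℕ) = x → z = vx x := by
      intro x hx
      apply Fin.ext
      rw [hvx x (by have := z.2; omega)]
      exact hx
    rcases key with h | h | h | ⟨j', hj', h⟩
    · exact Or.inl (hz0 _ h)
    · exact Or.inr (Or.inl (hz0 _ h))
    · exact Or.inr (Or.inr (Or.inl (hz0 _ h)))
    · exact Or.inr (Or.inr (Or.inr ⟨j', hj', hz0 _ h⟩))
  · -- adist
    intro i g hg j hj e he
    rw [hEV]
    have hi := hlen _ _ hg
    have hB := hb3 i hi j hj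
    have h2 := hb1 _ (elt_lt hok hg he)
    refine hdist (el t e) (aBase t p i + j) ((mem_coreE t p gs _ _).2 (Or.inr (Or.inr
      ⟨i, g, hg, j, hj, rfl, ?_⟩))) h2 hB.1
    rcases he with rfl | rfl | rfl
    · exact Or.inl rfl
    · exact Or.inr (Or.inl rfl)
    · exact Or.inr (Or.inr (Or.inl rfl))

theorem proof_CT : CT := by
  intro t p gs ht hok hW
  obtain ⟨T, hT, hE, hD, hS⟩ := hW
  exact main t p gs ht hok _ rfl T hT hE hD hS

end Pool.Agent.W98.TP
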